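import Mathlib
import Pool.Agent.H53.Ultra.Statement
import Pool.Agent.H53.Ultra.NoHom

set_option autoImplicit false

namespace Pool.Agent.Results.MP_9a798f_an.UltrapowerNotGroup

open Pool.Agent.H53.UltraStatement

universe u v w

/-- Negative answer to the question, in a strong form: let `N` be an infinite-dimensional factor
with a faithful tracial state `τ` (a factor of type II_1; normality of `τ` is not needed), `U` a
nonprincipal ultrafilter on the natural numbers, `G` any discrete group and `L(G)` its group von
Neumann algebra, acting on a Hilbert space `K` with orthonormal basis `(b h)`, `h ∈ G`. Then there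
is no unital *-homomorphism from the tracial ultrapower `N^U` to `L(G)`; in particular `N^U` is
not *-isomorphic to `L(G)`. -/
theorem result {H : Type u} [NormedAddCommGroup H] [InnerProductSpace ℂ H] [CompleteSpace H]
    (N : VonNeumannAlgebra H) (hN : IsFactor N) (hinf : IsInfDim N)
    (τ : (H →L[ℂ] H) → ℂ) (hτ : IsFaithfulTrace N τ)
    (U : Ultrafilter ℕ) (hU : ∀ n : ℕ, U ≠ pure n) {G : Type v} [Group G]
    {K : Type w} [NormedAddCommGroup K] [InnerProductSpace ℂ K] [CompleteSpace K]
    (b : HilbertBasis G ℂ K) (lam : G → (K →L[ℂ] K)) (hlam : ∀ g h, lam g (b h) = b (g * h)) :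
    ¬ ∃ Φ : (ℕ → (H →L[ℂ] H)) → (K →L[ℂ] K), IsUltrapowerHom N τ U (groupAlg lam) Φ :=
  Pool.Agent.H53.Ultra.no_ultrapower_hom N hN hinf τ hτ U hU b lam hlam

end Pool.Agent.Results.MP_9a798f_an.UltrapowerNotGroup
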